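import Mathlib
import Pool.Agent.R443.PS

/-!
# Coloured ternary partitions: `d(3n) - d(n)` for `m + 1` divisible by `9` (MP_26251e_nt, Q2)
-/

set_option autoImplicit false

namespace Run7.h44.Par

open PowerSeries Finset
open Pool.Agent.R443.PS (iv mul_iv iv_mul coeff_expand_mul' coeff_iv_pow_mul_of_lt)

noncomputable section

/-- `x ↦ x ^ 3` -/
def ex : ℤ⟦X⟧ →ₐ[ℤ] ℤ⟦X⟧ := expand 3 (by norm_num)

/-- every third coefficient -/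
def U : ℤ⟦X⟧ →+ ℤ⟦X⟧ where
  toFun B := mk fun n => coeff (3 * n) B
  map_zero' := by ext n; simp
  map_add' A B := by ext n; simp

lemma coeff_U (n : ℕ) (B : ℤ⟦X⟧) : coeff n (U B) = coeff (3 * n) B := by
  simp [U]

lemma U_ex (B C : ℤ⟦X⟧) : U (B * ex C) = U B * C := by
  ext n
  rw [coeff_U, mul_comm B, ex, coeff_expand_mul' (by norm_num), mul_comm (U B), coeff_mul,
    Finset.Nat.sum_antidiagonal_eq_sum_range_succ_mk]
  rw [Nat.mul_div_cancel_left _ (by norm_num : 0 < 3)]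
  refine Finset.sum_congr rfl fun b hb => ?_
  rw [coeff_U, Nat.mul_sub]

lemma U_one : U 1 = 1 := by
  ext n
  rw [coeff_U, coeff_one, coeff_one]
  have : (3 * n = 0) ↔ (n = 0) := by omega
  simp [this]

lemma U_X_pow (k : ℕ) : U (X ^ (3 * k)) = X ^ k := by
  ext n
  rw [coeff_U, coeff_X_pow, coeff_X_pow]
  have : (3 * n = 3 * k) ↔ (n = k) := by omega
  simp [this]

lemma U_X_pow_one (k : ℕ) : U (X ^ (3 * k + 1)) = 0 := by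
  ext n
  rw [coeff_U, coeff_X_pow]
  have : ¬ (3 * n = 3 * k + 1) := by omega
  simp [this]

lemma U_X_pow_two (k : ℕ) : U (X ^ (3 * k + 2)) = 0 := by
  ext n
  rw [coeff_U, coeff_X_pow]
  have : ¬ (3 * n = 3 * k + 2) := by omega
  simp [this]

/-- `w = x / (1 - x) ^ 2` -/
def w : ℤ⟦X⟧ := X * iv 1 ^ 2

lemma h1 : (1 - X) * iv 1 = 1 := by
  have := mul_iv (d := 1) one_ne_zero
  simpa using this

lemma h3 : (1 - X ^ 3) * iv 3 = 1 := mul_iv (d := 3) (by norm_num)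

lemma ex_iv_one : ex (iv 1) = iv 3 := by
  have h : (1 - X ^ 3) * ex (iv 1) = 1 := by
    have := congrArg ex h1
    rw [map_mul, map_sub, map_one, ex, expand_X] at this
    exact this
  calc ex (iv 1) = ((1 - X ^ 3) * iv 3) * ex (iv 1) := by rw [h3, one_mul]
    _ = iv 3 * ((1 - X ^ 3) * ex (iv 1)) := by ring
    _ = iv 3 := by rw [h, mul_one]

lemma iv_one_eq : iv 1 = (1 + X + X ^ 2) * ex (iv 1) := by
  rw [ex_iv_one]
  have h : (1 - X) * ((1 + X + X ^ 2) * iv 3) = 1 := by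
    calc (1 - X) * ((1 + X + X ^ 2) * iv 3) = (1 - X ^ 3) * iv 3 := by ring
      _ = 1 := h3
  calc iv 1 = iv 1 * ((1 - X) * ((1 + X + X ^ 2) * iv 3)) := by rw [h, mul_one]
    _ = ((1 - X) * iv 1) * ((1 + X + X ^ 2) * iv 3) := by ring
    _ = (1 + X + X ^ 2) * iv 3 := by rw [h1, one_mul]

/-- `s = 1 + 3 w = (1 - x ^ 3) / (1 - x) ^ 3` -/
lemma s_eq : (1 + 3 * w) * iv 3 = iv 1 ^ 3 := by
  have e : 1 + 3 * w = (1 - X ^ 3) * iv 1 ^ 3 := by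
    have : (1 : ℤ⟦X⟧) + 3 * w = ((1 - X) * iv 1) ^ 2 + 3 * w := by rw [h1, one_pow]
    rw [this, w]
    calc ((1 - X) * iv 1) ^ 2 + 3 * (X * iv 1 ^ 2) = (1 + X + X ^ 2) * iv 1 ^ 2 := by ring
      _ = (1 + X + X ^ 2) * iv 1 ^ 2 * ((1 - X) * iv 1) := by rw [h1, mul_one]
      _ = (1 - X ^ 3) * iv 1 ^ 3 := by ring
  rw [e]
  calc (1 - X ^ 3) * iv 1 ^ 3 * iv 3 = iv 1 ^ 3 * ((1 - X ^ 3) * iv 3) := by ring
    _ = iv 1 ^ 3 := by rw [h3, mul_one]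


lemma U_int (c : ℤ) (B : ℤ⟦X⟧) : U ((c : ℤ⟦X⟧) * B) = (c : ℤ⟦X⟧) * U B := by
  rw [← zsmul_eq_mul, ← zsmul_eq_mul, map_zsmul]

lemma U_w : U w = 3 * w := by
  have e : w = (X ^ (3 * 0 + 1) + ((2 : ℤ) : ℤ⟦X⟧) * X ^ (3 * 0 + 2) + ((3 : ℤ) : ℤ⟦X⟧) * X ^ (3 * 1)
      + ((2 : ℤ) : ℤ⟦X⟧) * X ^ (3 * 1 + 1) + X ^ (3 * 1 + 2)) * ex (iv 1 ^ 2) := by
    rw [w, map_pow]
    nth_rewrite 1 [iv_one_eq]
    push_cast
    ring
  conv_lhs => rw [e]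
  rw [U_ex]
  simp only [map_add, U_int, U_X_pow, U_X_pow_one, U_X_pow_two]
  rw [w]
  push_cast
  ring

lemma U_w_sq : U (w ^ 2) = 27 * w ^ 2 + 4 * w := by
  have e : w ^ 2 = (X ^ (3 * 0 + 2) + ((4 : ℤ) : ℤ⟦X⟧) * X ^ (3 * 1) +
      ((10 : ℤ) : ℤ⟦X⟧) * X ^ (3 * 1 + 1) + ((16 : ℤ) : ℤ⟦X⟧) * X ^ (3 * 1 + 2)
      + ((19 : ℤ) : ℤ⟦X⟧) * X ^ (3 * 2) + ((16 : ℤ) : ℤ⟦X⟧) * X ^ (3 * 2 + 1)
      + ((10 : ℤ) : ℤ⟦X⟧) * X ^ (3 * 2 + 2) + ((4 : ℤ) : ℤ⟦X⟧) * X ^ (3 * 3) + X ^ (3 * 3 + 1)) *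
      ex (iv 1 ^ 4) := by
    rw [w, map_pow]
    nth_rewrite 1 [iv_one_eq]
    push_cast
    ring
  conv_lhs => rw [e]
  rw [U_ex]
  simp only [map_add, U_int, U_X_pow, U_X_pow_one, U_X_pow_two]
  have h : (27 : ℤ⟦X⟧) * w ^ 2 + 4 * w = 27 * w ^ 2 + 4 * w * ((1 - X) * iv 1) ^ 2 := by
    rw [h1]
    ring
  rw [h, w]
  push_cast
  ring

lemma ex_w : ex w = X ^ 3 * iv 3 ^ 2 := by
  rw [w, map_mul, map_pow, ex_iv_one]
  congr 1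
  rw [ex, expand_X]

lemma w_rec : w ^ 3 = ex w * (1 + 3 * w) ^ 2 := by
  rw [ex_w]
  calc w ^ 3 = X ^ 3 * (iv 1 ^ 3) ^ 2 := by rw [w]; ring
    _ = X ^ 3 * ((1 + 3 * w) * iv 3) ^ 2 := by rw [s_eq]
    _ = X ^ 3 * iv 3 ^ 2 * (1 + 3 * w) ^ 2 := by ring

/-- `y = 3 w` -/
def y : ℤ⟦X⟧ := 3 * w

lemma ex_y : ex y = 3 * ex w := by
  rw [y, map_mul]
  congr 1
  exact map_ofNat ex 3

lemma y_rec : y ^ 3 = 9 * ex y * (1 + y) ^ 2 := by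
  rw [ex_y, y]
  calc (3 * w) ^ 3 = 27 * w ^ 3 := by ring
    _ = 27 * (ex w * (1 + 3 * w) ^ 2) := by rw [w_rec]
    _ = _ := by ring

lemma U_y : U y = 3 * y := by
  have e : y = ((3 : ℤ) : ℤ⟦X⟧) * w := by rw [y]; push_cast; rfl
  rw [e, U_int, U_w]
  push_cast
  ring

lemma U_y_sq : U (y ^ 2) = 27 * y ^ 2 + 12 * y := by
  have e : y ^ 2 = ((9 : ℤ) : ℤ⟦X⟧) * w ^ 2 := by rw [y]; push_cast; ring
  rw [e, U_int, U_w_sq, y]
  push_cast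
  ring

lemma U_y_rec (B : ℤ⟦X⟧) : U (B * y ^ 3) = 9 * y * U (B * (1 + y) ^ 2) := by
  have e : B * y ^ 3 = ((9 : ℤ) : ℤ⟦X⟧) * ((B * (1 + y) ^ 2) * ex y) := by
    rw [y_rec]; push_cast; ring
  rw [e, U_int, U_ex]
  push_cast
  ring

open Polynomial in
lemma U_pow_rec (k : ℕ) : U (y ^ (k + 3)) = 9 * y * (U (y ^ k) + 2 * U (y ^ (k + 1)) +
    U (y ^ (k + 2))) := by
  have e1 : y ^ (k + 3) = y ^ k * y ^ 3 := by ring
  have e2 : y ^ k * (1 + y) ^ 2 = y ^ k + ((2 : ℤ) : ℤ⟦X⟧) * y ^ (k + 1) + y ^ (k + 2) := by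
    push_cast; ring
  rw [e1, U_y_rec, e2, map_add, map_add, U_int]
  push_cast
  ring

/-- polynomials in `y` -/
def Pol (B : ℤ⟦X⟧) : Prop := ∃ P : Polynomial ℤ, B = Polynomial.aeval y P

/-- polynomials in `y` without constant term -/
def Lam (B : ℤ⟦X⟧) : Prop := ∃ P : Polynomial ℤ, B = y * Polynomial.aeval y P

lemma U_pow_pol (k : ℕ) : Pol (U (y ^ k)) ∧ Pol (U (y ^ (k + 1))) ∧ Pol (U (y ^ (k + 2))) := by
  induction k with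
  | zero =>
    refine ⟨⟨1, by simp [U_one]⟩, ⟨3 * Polynomial.X, ?_⟩, ⟨27 * Polynomial.X ^ 2 +
      12 * Polynomial.X, ?_⟩⟩
    · rw [zero_add, pow_one, U_y]
      simp only [map_mul, map_ofNat, Polynomial.aeval_X]
    · rw [zero_add, U_y_sq]
      simp only [map_add, map_mul, map_pow, map_ofNat, Polynomial.aeval_X]
  | succ k ih =>
    obtain ⟨⟨P, hP⟩, ⟨Q, hQ⟩, ⟨R, hR⟩⟩ := ih
    refine ⟨⟨Q, hQ⟩, ⟨R, hR⟩, ⟨9 * Polynomial.X * (P + 2 * Q + R), ?_⟩⟩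
    rw [show k + 1 + 2 = k + 3 by ring, U_pow_rec, hP, hQ, hR]
    simp only [map_add, map_mul, map_ofNat, Polynomial.aeval_X]

lemma U_pow_lam (k : ℕ) : ∃ P : Polynomial ℤ, U (y ^ (k + 1)) = 3 * (y * Polynomial.aeval y P) := by
  match k with
  | 0 => exact ⟨1, by simp [U_y]⟩
  | 1 =>
    refine ⟨9 * Polynomial.X + 4, ?_⟩
    rw [show 1 + 1 = 2 by rfl, U_y_sq]
    simp only [map_add, map_mul, map_ofNat, Polynomial.aeval_X]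
    ring
  | (k + 2) =>
    obtain ⟨⟨P, hP⟩, ⟨Q, hQ⟩, ⟨R, hR⟩⟩ := U_pow_pol k
    refine ⟨3 * (P + 2 * Q + R), ?_⟩
    rw [show k + 2 + 1 = k + 3 by ring, U_pow_rec, hP, hQ, hR]
    simp only [map_add, map_mul, map_ofNat]
    ring

lemma U_lam (P : Polynomial ℤ) :
    ∃ Q : Polynomial ℤ, U (y * Polynomial.aeval y P) = 3 * (y * Polynomial.aeval y Q) := by
  induction P using Polynomial.induction_on' with
  | add p q hp hq =>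
    obtain ⟨Q1, h1⟩ := hp
    obtain ⟨Q2, h2⟩ := hq
    refine ⟨Q1 + Q2, ?_⟩
    rw [map_add, mul_add, map_add, h1, h2, map_add]
    ring
  | monomial n a =>
    obtain ⟨Q, hQ⟩ := U_pow_lam n
    refine ⟨Polynomial.C a * Q, ?_⟩
    have e : y * Polynomial.aeval y (Polynomial.monomial n a) = ((a : ℤ) : ℤ⟦X⟧) * y ^ (n + 1) := by
      rw [Polynomial.aeval_monomial]
      simp
      ring
    rw [e, U_int, hQ, map_mul, Polynomial.aeval_C]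
    simp
    ring

/-- `m ^ 2 (m + 1) / 2` -/
def T (m : ℕ) : ℤ := (m : ℤ) ^ 2 * ((m : ℤ) + 1) / 2

lemma two_T (m : ℕ) : 2 * T m = (m : ℤ) ^ 2 * ((m : ℤ) + 1) := by
  unfold T
  refine Int.mul_ediv_cancel' ?_
  have h := Int.even_mul_succ_self (m : ℤ)
  have e : (m : ℤ) ^ 2 * ((m : ℤ) + 1) = m * (m * (m + 1)) := by ring
  rw [e]
  exact h.two_dvd.mul_left _

lemma T_rec (m : ℕ) : T (m + 3) = 3 * T (m + 2) - 3 * T (m + 1) + T m + 3 := by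
  have h : 2 * T (m + 3) = 2 * (3 * T (m + 2) - 3 * T (m + 1) + T m + 3) := by
    have e : 2 * (3 * T (m + 2) - 3 * T (m + 1) + T m + 3) =
      3 * (2 * T (m + 2)) - 3 * (2 * T (m + 1)) + 2 * T m + 6 := by ring
    rw [e, two_T, two_T, two_T, two_T]
    push_cast
    ring
  linarith

/-- `s = 1 + y` -/
def s : ℤ⟦X⟧ := 1 + y

lemma U_s_rec (m : ℕ) : U (s ^ (m + 3)) = 3 * U (s ^ (m + 2)) - 3 * U (s ^ (m + 1)) + U (s ^ m) +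
    9 * y * U (s ^ (m + 2)) := by
  have e : s ^ (m + 3) = ((3 : ℤ) : ℤ⟦X⟧) * s ^ (m + 2) + ((-3 : ℤ) : ℤ⟦X⟧) * s ^ (m + 1) + s ^ m +
      s ^ m * y ^ 3 := by
    rw [s]
    push_cast
    ring
  rw [e, map_add, map_add, map_add, U_int, U_int, U_y_rec]
  have e2 : s ^ m * (1 + y) ^ 2 = s ^ (m + 2) := by rw [s]; ring
  rw [e2]
  push_cast
  ring

def HF (m : ℕ) : Prop := ∃ P : Polynomial ℤ, U (s ^ m) =
  1 + 3 * ((T m : ℤ) : ℤ⟦X⟧) * y + 27 * (y * Polynomial.aeval y P)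

lemma h_form (m : ℕ) : HF m ∧ HF (m + 1) ∧ HF (m + 2) := by
  induction m with
  | zero =>
    refine ⟨⟨0, ?_⟩, ⟨0, ?_⟩, ⟨Polynomial.X, ?_⟩⟩
    · have : T 0 = 0 := by decide
      rw [this, pow_zero, U_one]
      simp
    · have : T (0 + 1) = 1 := by decide
      rw [this, s, zero_add, pow_one, map_add, U_one, U_y]
      simp
    · have : T (0 + 2) = 6 := by decide
      have e : s ^ (0 + 2) = 1 + ((2 : ℤ) : ℤ⟦X⟧) * y + y ^ 2 := by rw [s]; push_cast; ring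
      rw [this, e, map_add, map_add, U_one, U_int, U_y, U_y_sq, Polynomial.aeval_X]
      push_cast
      ring
  | succ m ih =>
    obtain ⟨⟨P, hP⟩, ⟨Q, hQ⟩, ⟨R, hR⟩⟩ := ih
    refine ⟨⟨Q, hQ⟩, ⟨R, hR⟩, ⟨3 * R - 3 * Q + P + Polynomial.C (T (m + 2)) * Polynomial.X +
      9 * Polynomial.X * R, ?_⟩⟩
    rw [show m + 1 + 2 = m + 3 by ring, U_s_rec, hP, hQ, hR, T_rec]
    simp only [map_add, map_sub, map_mul, map_ofNat, Polynomial.aeval_X, Polynomial.aeval_C]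
    push_cast
    have e : (algebraMap ℤ ℤ⟦X⟧) (T (m + 2)) = ((T (m + 2) : ℤ) : ℤ⟦X⟧) := by simp
    rw [e]
    ring

end

end Run7.h44.Par
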