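import Pool.Agent.Run7.h44.Par.Main

set_option autoImplicit false

namespace Run7.h44.Par

open PowerSeries Finset
open Pool.Agent.R443.PS (iv mul_iv iv_mul coeff_expand_mul' coeff_iv_pow_mul_of_lt
  coeff_iv_pow_succ)

noncomputable section

lemma ex_iv {d : ℕ} (hd : d ≠ 0) : ex (iv d) = iv (3 * d) := by
  have h : (1 - X ^ (3 * d)) * ex (iv d) = 1 := by
    have := congrArg ex (mul_iv hd)
    rw [map_mul, map_sub, map_one, map_pow, ex, expand_X, ← pow_mul] at this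
    exact this
  have h3d : (1 - X ^ (3 * d)) * iv (3 * d) = 1 := mul_iv (by omega)
  calc ex (iv d) = ((1 - X ^ (3 * d)) * iv (3 * d)) * ex (iv d) := by rw [h3d, one_mul]
    _ = iv (3 * d) * ((1 - X ^ (3 * d)) * ex (iv d)) := by ring
    _ = iv (3 * d) := by rw [h, mul_one]

/-- finite products -/
def Pr (m J : ℕ) : ℤ⟦X⟧ := iv 1 ^ m * ∏ j ∈ range J, iv (3 ^ j) ^ (2 * m)

lemma Pr_succ (m J : ℕ) : Pr m (J + 1) = s ^ m * ex (Pr m J) := by
  have e1 : ex (Pr m J) = iv 3 ^ m * ∏ j ∈ range J, iv (3 ^ (j + 1)) ^ (2 * m) := by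
    rw [Pr, map_mul, map_pow, ex_iv_one, map_prod]
    congr 1
    refine Finset.prod_congr rfl fun j _ => ?_
    rw [map_pow, ex_iv (by positivity), ← pow_succ']
  rw [e1, Pr, Finset.prod_range_succ', pow_zero]
  have e2 : s ^ m * iv 3 ^ m = iv 1 ^ m * iv 1 ^ (2 * m) := by
    have e3 : s * iv 3 = iv 1 ^ 3 := by rw [s, y]; exact s_eq
    rw [← mul_pow, e3]
    ring
  calc iv 1 ^ m * ((∏ k ∈ range J, iv (3 ^ (k + 1)) ^ (2 * m)) * iv 1 ^ (2 * m))
      = (iv 1 ^ m * iv 1 ^ (2 * m)) * ∏ k ∈ range J, iv (3 ^ (k + 1)) ^ (2 * m) := by ring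
    _ = (s ^ m * iv 3 ^ m) * ∏ k ∈ range J, iv (3 ^ (k + 1)) ^ (2 * m) := by rw [e2]
    _ = _ := by ring

lemma coeff_Pr (m n : ℕ) : ∀ J, n + 1 ≤ J → coeff n (Pr m J) = coeff n (Pr m (n + 1)) := by
  intro J hJ
  induction J, hJ using Nat.le_induction with
  | base => rfl
  | succ J hJ ih =>
    rw [← ih, Pr, Finset.prod_range_succ]
    have e : iv 1 ^ m * ((∏ j ∈ range J, iv (3 ^ j) ^ (2 * m)) * iv (3 ^ J) ^ (2 * m)) =
      iv (3 ^ J) ^ (2 * m) * Pr m J := by rw [Pr]; ring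
    rw [e]
    refine coeff_iv_pow_mul_of_lt _ _ ?_
    calc n < J := hJ
      _ < 3 ^ J := Nat.lt_pow_self (by norm_num)

/-- the generating function -/
def G (m : ℕ) : ℤ⟦X⟧ := mk fun n => coeff n (Pr m (n + 1))

lemma coeff_G (m n J : ℕ) (h : n + 1 ≤ J) : coeff n (G m) = coeff n (Pr m J) := by
  rw [coeff_Pr m n J h, G, coeff_mk]

lemma G_eq (m : ℕ) : G m = s ^ m * ex (G m) := by
  ext n
  have e1 : coeff n (s ^ m * ex (G m)) = coeff n (s ^ m * ex (Pr m (n + 1))) := by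
    rw [mul_comm, mul_comm (s ^ m), ex, coeff_expand_mul' (by norm_num),
      coeff_expand_mul' (by norm_num)]
    refine Finset.sum_congr rfl fun b hb => ?_
    rw [coeff_G m b (n + 1)]
    rw [mem_range] at hb
    have := Nat.div_le_self n 3
    omega
  rw [e1, ← Pr_succ, coeff_G m n (n + 1 + 1) (by omega)]

lemma U_mul_G (m : ℕ) (B : ℤ⟦X⟧) : U (B * G m) = U (B * s ^ m) * G m := by
  conv_lhs => rw [G_eq m]
  rw [← mul_assoc, U_ex]

/-- iterates of `U` -/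
def It (m r : ℕ) : ℤ⟦X⟧ := mk fun n => coeff (3 ^ r * n) (G m)

lemma It_zero (m : ℕ) : It m 0 = G m := by
  ext n
  simp [It]

lemma It_succ (m r : ℕ) : It m (r + 1) = U (It m r) := by
  ext n
  rw [coeff_U, It, It, coeff_mk, coeff_mk]
  congr 2
  ring

/-- the first step -/
def Base (m e : ℕ) : Prop := ∃ P : Polynomial ℤ,
  U (s ^ m) = 1 + ((3 ^ (e + 1) : ℤ) : ℤ⟦X⟧) * (y * Polynomial.aeval y P)

lemma aeval_s (m : ℕ) : s ^ m = Polynomial.aeval y ((1 + Polynomial.X : Polynomial ℤ) ^ m) := by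
  rw [map_pow, map_add, map_one, Polynomial.aeval_X, s]

lemma step (m e : ℕ) (h : Base m e) (r : ℕ) : ∃ P : Polynomial ℤ,
    It m (r + 1) - It m r =
      ((3 ^ (r + e + 1) : ℤ) : ℤ⟦X⟧) * ((y * Polynomial.aeval y P) * G m) := by
  induction r with
  | zero =>
    obtain ⟨P, hP⟩ := h
    refine ⟨P, ?_⟩
    have e1 : U (G m) = U (s ^ m) * G m := by
      have := U_mul_G m 1
      rwa [one_mul, one_mul] at this
    rw [It_succ, It_zero, e1, hP, zero_add]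
    ring
  | succ r ih =>
    obtain ⟨P, hP⟩ := ih
    obtain ⟨Q, hQ⟩ := U_lam (P * (1 + Polynomial.X) ^ m)
    refine ⟨Q, ?_⟩
    rw [It_succ m (r + 1), It_succ m r, ← map_sub, ← It_succ, hP, U_int, U_mul_G]
    have e2 : y * Polynomial.aeval y P * s ^ m =
      y * Polynomial.aeval y (P * (1 + Polynomial.X) ^ m) := by
      rw [aeval_s m, map_mul]
      ring
    rw [e2, hQ]
    have e3 : ((3 ^ (r + 1 + e + 1) : ℤ) : ℤ⟦X⟧) = ((3 ^ (r + e + 1) : ℤ) : ℤ⟦X⟧) * 3 := by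
      push_cast
      ring
    rw [e3]
    ring

lemma dvd_step (m e : ℕ) (h : Base m e) (r u : ℕ) :
    (3 : ℤ) ^ (r + e + 2) ∣ coeff (3 ^ (r + 1) * u) (G m) - coeff (3 ^ r * u) (G m) := by
  obtain ⟨P, hP⟩ := step m e h r
  have h1 : coeff (3 ^ (r + 1) * u) (G m) - coeff (3 ^ r * u) (G m) =
      coeff u (It m (r + 1) - It m r) := by
    rw [map_sub, It, It, coeff_mk, coeff_mk]
  rw [h1, hP]
  refine ⟨coeff u ((w * Polynomial.aeval y P) * G m), ?_⟩
  have e1 : ((3 ^ (r + e + 1) : ℤ) : ℤ⟦X⟧) * ((y * Polynomial.aeval y P) * G m) =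
      (3 ^ (r + e + 2) : ℤ) • ((w * Polynomial.aeval y P) * G m) := by
    rw [zsmul_eq_mul, pow_succ (3 : ℤ) (r + e + 1)]
    conv_lhs => rw [show y * Polynomial.aeval y P = 3 * w * Polynomial.aeval y P by rw [y]]
    push_cast
    ring
  rw [e1, map_zsmul, smul_eq_mul]

/-- `d (3 n) - d n` -/
lemma dvd_one (m e : ℕ) (h : Base m e) (n : ℕ) :
    (3 : ℤ) ^ (padicValNat 3 n + e + 2) ∣ coeff (3 * n) (G m) - coeff n (G m) := by
  obtain ⟨u, hu⟩ : 3 ^ padicValNat 3 n ∣ n := pow_padicValNat_dvd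
  have h1 := dvd_step m e h (padicValNat 3 n) u
  have h2 : 3 ^ (padicValNat 3 n + 1) * u = 3 * n := by
    rw [pow_succ', mul_assoc, ← hu]
  rwa [h2, ← hu] at h1

lemma dvd_two (m e : ℕ) (h : Base m e) (n : ℕ) (hn : n ≠ 0) :
    (3 : ℤ) ^ (padicValNat 3 n + e + 2) ∣ coeff (9 * n) (G m) - coeff n (G m) := by
  have h1 := dvd_one m e h n
  have h2 := dvd_one m e h (3 * n)
  have h3 : padicValNat 3 (3 * n) = padicValNat 3 n + 1 := by
    have : Fact (Nat.Prime 3) := ⟨Nat.prime_three⟩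
    rw [padicValNat.mul (by norm_num) hn, padicValNat.self (by norm_num), add_comm]
  rw [h3, ← mul_assoc] at h2
  have h4 : (3 : ℤ) ^ (padicValNat 3 n + e + 2) ∣ coeff (9 * n) (G m) - coeff (3 * n) (G m) :=
    (pow_dvd_pow 3 (by omega)).trans h2
  have h5 := dvd_add h4 h1
  rwa [sub_add_sub_cancel] at h5

/-! ### the first step for the different classes of `m` -/

lemma base_zero (m : ℕ) : Base m 0 := by
  obtain ⟨P, hP⟩ := (h_form m).1
  refine ⟨Polynomial.C (T m) + 9 * P, ?_⟩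
  rw [hP, map_add, map_mul, map_ofNat, Polynomial.aeval_C]
  have e : (algebraMap ℤ ℤ⟦X⟧) (T m) = ((T m : ℤ) : ℤ⟦X⟧) := by simp
  rw [e]
  push_cast
  ring

lemma base_of_dvd (m e : ℕ) (he : e ≤ 2) (h : (3 : ℤ) ^ e ∣ T m) : Base m e := by
  obtain ⟨P, hP⟩ := (h_form m).1
  obtain ⟨t, ht⟩ := h
  obtain ⟨f, hf⟩ : ∃ f : ℕ, 2 = e + f := ⟨2 - e, by omega⟩
  refine ⟨Polynomial.C t + Polynomial.C ((3 : ℤ) ^ f) * P, ?_⟩
  rw [hP, ht, map_add, map_mul, Polynomial.aeval_C, Polynomial.aeval_C]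
  have e1 : (algebraMap ℤ ℤ⟦X⟧) t = ((t : ℤ) : ℤ⟦X⟧) := by simp
  have e2 : (algebraMap ℤ ℤ⟦X⟧) ((3 : ℤ) ^ f) = (3 : ℤ⟦X⟧) ^ f := by simp
  have e3 : (27 : ℤ⟦X⟧) = 3 ^ (e + 1) * 3 ^ f := by
    rw [← pow_add, show e + 1 + f = 3 by omega]
    norm_num
  rw [e1, e2, e3]
  push_cast
  ring

lemma T_dvd_three (m : ℕ) (h : m % 3 = 2) : (3 : ℤ) ∣ T m := by
  have h1 : (3 : ℤ) ∣ 2 * T m := by
    rw [two_T]
    exact Dvd.dvd.mul_left (by omega) _
  omega

lemma T_dvd_nine (m : ℕ) (h : m % 9 = 8) : (9 : ℤ) ∣ T m := by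
  have h1 : (9 : ℤ) ∣ 2 * T m := by
    rw [two_T]
    exact Dvd.dvd.mul_left (by omega) _
  omega

lemma base_one (m : ℕ) (h : m % 3 = 2) : Base m 1 :=
  base_of_dvd m 1 (by norm_num) (by simpa using T_dvd_three m h)

lemma base_two (m : ℕ) (h : m % 9 = 8) : Base m 2 :=
  base_of_dvd m 2 (by norm_num) (by simpa using T_dvd_nine m h)

/-! ### exact values -/

lemma coeff_w (n : ℕ) : coeff n w = (n : ℤ) := by
  rw [w]
  cases n with
  | zero => simp
  | succ n =>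
    rw [coeff_succ_X_mul, coeff_iv_pow_succ one_ne_zero]
    simp
    ring

lemma coeff_zero_G (m : ℕ) : coeff 0 (G m) = 1 := by
  have h : constantCoeff (iv 1) = 1 := by
    have := congrArg constantCoeff h1
    simpa using this
  rw [coeff_G m 0 1 (by norm_num), Pr, Finset.prod_range_one, pow_zero,
    coeff_zero_eq_constantCoeff_apply, map_mul, map_pow, map_pow, h]
  simp

lemma three_dvd_coeff_G (m n : ℕ) (hn : n ≠ 0) : (3 : ℤ) ∣ coeff n (G m) := by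
  induction n using Nat.strong_induction_on with
  | _ n ih =>
    obtain ⟨Q, hQ⟩ : s - 1 ∣ s ^ m - 1 ^ m := sub_dvd_pow_sub_pow s 1 m
    have e1 : G m = ex (G m) + (3 : ℤ) • (w * Q * ex (G m)) := by
      conv_lhs => rw [G_eq m]
      have e2 : s ^ m = 1 + 3 * (w * Q) := by
        have e3 : s - 1 = 3 * w := by rw [s, y]; ring
        rw [e3, one_pow] at hQ
        linear_combination hQ
      rw [e2, zsmul_eq_mul]
      push_cast
      ring
    rw [e1, map_add, map_zsmul]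
    refine dvd_add ?_ ?_
    · by_cases h3 : 3 ∣ n
      · obtain ⟨k, rfl⟩ := h3
        rw [ex, coeff_expand_mul]
        exact ih k (by omega) (by omega)
      · rw [ex, coeff_expand_of_not_dvd _ _ _ h3]
        exact dvd_zero _
    · rw [smul_eq_mul]
      exact dvd_mul_right _ _

lemma coeff_w_mul_G (m n : ℕ) : (3 : ℤ) ∣ coeff n (w * G m) - n := by
  obtain ⟨Q, hQ⟩ : ∃ Q : ℤ⟦X⟧, G m = 1 + (3 : ℤ) • Q := by
    refine ⟨mk fun k => if k = 0 then 0 else coeff k (G m) / 3, ?_⟩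
    ext k
    rw [map_add, map_zsmul, coeff_mk, smul_eq_mul]
    by_cases hk : k = 0
    · subst hk
      rw [coeff_zero_G]
      simp
    · rw [if_neg hk, coeff_one, if_neg hk, zero_add,
        Int.mul_ediv_cancel' (three_dvd_coeff_G m k hk)]
  rw [hQ, mul_add, mul_one, map_add, coeff_w, mul_smul_comm, map_zsmul, smul_eq_mul]
  ring_nf
  exact dvd_mul_left _ _

lemma coeff_sub (m u r : ℕ) (ε : ℤ) (P : Polynomial ℤ)
    (h : It m (r + 1) - It m r =
      ((3 ^ (r + 1) : ℤ) : ℤ⟦X⟧) * (((ε : ℤ⟦X⟧) * y + 3 * (y * Polynomial.aeval y P)) * G m)) :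
    ∃ c : ℤ, coeff (3 ^ (r + 1) * u) (G m) - coeff (3 ^ r * u) (G m) =
      3 ^ (r + 2) * (ε * u + 3 * c) := by
  have h1 : coeff (3 ^ (r + 1) * u) (G m) - coeff (3 ^ r * u) (G m) =
      coeff u (It m (r + 1) - It m r) := by
    rw [map_sub, It, It, coeff_mk, coeff_mk]
  obtain ⟨k, hk⟩ := coeff_w_mul_G m u
  refine ⟨ε * k + coeff u ((w * Polynomial.aeval y P) * G m), ?_⟩
  rw [h1, h]
  have e1 : ((3 ^ (r + 1) : ℤ) : ℤ⟦X⟧) *
      (((ε : ℤ⟦X⟧) * y + 3 * (y * Polynomial.aeval y P)) * G m) =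
      (3 ^ (r + 2) * ε : ℤ) • (w * G m) + (3 ^ (r + 3) : ℤ) •
        ((w * Polynomial.aeval y P) * G m) := by
    rw [zsmul_eq_mul, zsmul_eq_mul]
    conv_lhs => rw [show (ε : ℤ⟦X⟧) * y + 3 * (y * Polynomial.aeval y P) =
      (ε : ℤ⟦X⟧) * (3 * w) + 3 * (3 * w * Polynomial.aeval y P) by rw [y]]
    push_cast
    ring
  rw [e1, map_add, map_zsmul, map_zsmul, smul_eq_mul, smul_eq_mul]
  have h2 : coeff u (w * G m) = u + 3 * k := by linarith
  rw [h2]
  ring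

/-- the case `m = 1 mod 3` -/
lemma step_one (m : ℕ) (hm : m % 3 = 1) (r : ℕ) : ∃ (ε : ℤ) (P : Polynomial ℤ), ¬ (3 : ℤ) ∣ ε ∧
    It m (r + 1) - It m r =
      ((3 ^ (r + 1) : ℤ) : ℤ⟦X⟧) * (((ε : ℤ⟦X⟧) * y + 3 * (y * Polynomial.aeval y P)) * G m) := by
  induction r with
  | zero =>
    obtain ⟨P, hP⟩ := (h_form m).1
    refine ⟨T m, 3 * P, ?_, ?_⟩
    · intro h
      have h2 : (3 : ℤ) ∣ (m : ℤ) ^ 2 * ((m : ℤ) + 1) := by
        rw [← two_T]
        exact h.mul_left _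
      rcases Int.prime_three.dvd_or_dvd h2 with h3 | h3
      · have := Int.prime_three.dvd_of_dvd_pow h3
        omega
      · omega
    · have e1 : U (G m) = U (s ^ m) * G m := by
        have := U_mul_G m 1
        rwa [one_mul, one_mul] at this
      rw [It_succ, It_zero, e1, hP, zero_add, map_mul, map_ofNat]
      push_cast
      ring
  | succ r ih =>
    obtain ⟨ε, P, hε, hP⟩ := ih
    obtain ⟨⟨P0, h0⟩, ⟨P1, h1'⟩, -⟩ := h_form m
    obtain ⟨Q, hQ⟩ := U_lam (P * (1 + Polynomial.X) ^ m)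
    refine ⟨ε * (T (m + 1) - T m), Polynomial.C (3 * ε) * (P1 - P0) + Q, ?_, ?_⟩
    · intro h
      rcases Int.prime_three.dvd_or_dvd h with h3 | h3
      · exact hε h3
      · have h4 : (3 : ℤ) ∣ 2 * T (m + 1) - 2 * T m := by
          rw [← mul_sub]
          exact h3.mul_left _
        rw [two_T, two_T] at h4
        have h5 : (((m + 1 : ℕ) : ℤ)) ^ 2 * (((m + 1 : ℕ) : ℤ) + 1) -
            (m : ℤ) ^ 2 * ((m : ℤ) + 1) = ((m : ℤ) + 1) * (3 * m + 2) := by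
          push_cast
          ring
        rw [h5] at h4
        rcases Int.prime_three.dvd_or_dvd h4 with h6 | h6 <;> omega
    · rw [It_succ m (r + 1), It_succ m r, ← map_sub, ← It_succ, hP, U_int, U_mul_G]
      have e2 : ((ε : ℤ⟦X⟧) * y + 3 * (y * Polynomial.aeval y P)) * s ^ m =
          (ε : ℤ⟦X⟧) * s ^ (m + 1) + ((-ε : ℤ) : ℤ⟦X⟧) * s ^ m + ((3 : ℤ) : ℤ⟦X⟧) *
            (y * Polynomial.aeval y (P * (1 + Polynomial.X) ^ m)) := by
        rw [map_mul, ← aeval_s m]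
        have : y = s - 1 := by rw [s]; ring
        push_cast
        rw [pow_succ]
        conv_lhs => rw [show (ε : ℤ⟦X⟧) * y = (ε : ℤ⟦X⟧) * (s - 1) by rw [← this]]
        ring
      rw [e2, map_add, map_add, U_int, U_int, U_int, h0, h1', hQ]
      simp only [map_add, map_sub, map_mul, map_ofNat, Polynomial.aeval_C]
      have e4 : (algebraMap ℤ ℤ⟦X⟧) ε = ((ε : ℤ) : ℤ⟦X⟧) := by simp
      rw [e4]
      push_cast
      ring

lemma exact_one (m : ℕ) (hm : m % 3 = 1) (r u : ℕ) (hu : ¬ 3 ∣ u) :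
    ¬ (3 : ℤ) ^ (r + 3) ∣ coeff (3 ^ (r + 1) * u) (G m) - coeff (3 ^ r * u) (G m) := by
  obtain ⟨ε, P, hε, h⟩ := step_one m hm r
  obtain ⟨c, hc⟩ := coeff_sub m u r ε P h
  rw [hc, show r + 3 = (r + 2) + 1 by ring, pow_succ,
    Int.mul_dvd_mul_iff_left (by positivity)]
  intro h3
  have h4 : (3 : ℤ) ∣ ε * u := (Int.dvd_add_left (dvd_mul_right 3 c)).1 h3
  rcases Int.prime_three.dvd_or_dvd h4 with h5 | h5
  · exact hε h5
  · exact hu (by exact_mod_cast h5)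

lemma exact_two (m : ℕ) (hm : m % 9 = 2 ∨ m % 9 = 5) (u : ℕ) (hu : ¬ 3 ∣ u) :
    ¬ (81 : ℤ) ∣ coeff (3 * u) (G m) - coeff u (G m) := by
  obtain ⟨P, hP⟩ := (h_form m).1
  have hT : ¬ (9 : ℤ) ∣ T m := by
    intro h
    have h2 : (9 : ℤ) ∣ (m : ℤ) ^ 2 * ((m : ℤ) + 1) := by
      rw [← two_T]
      exact h.mul_left _
    have h3 : IsCoprime (9 : ℤ) ((m : ℤ) ^ 2) := by
      have : IsCoprime (3 : ℤ) (m : ℤ) := by
        rw [Prime.coprime_iff_not_dvd Int.prime_three]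
        omega
      have h9 : (9 : ℤ) = 3 ^ 2 := by norm_num
      rw [h9]
      exact this.pow
    have h4 := h3.dvd_of_dvd_mul_left h2
    omega
  have e1 : U (G m) = U (s ^ m) * G m := by
    have := U_mul_G m 1
    rwa [one_mul, one_mul] at this
  have h : It m (0 + 1) - It m 0 = ((3 ^ (0 + 1) : ℤ) : ℤ⟦X⟧) *
      (((T m : ℤ) : ℤ⟦X⟧) * y + 3 * (y * Polynomial.aeval y (3 * P))) * G m := by
    rw [It_succ, It_zero, e1, hP, zero_add, map_mul, map_ofNat]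
    push_cast
    ring
  have h1 : coeff (3 * u) (G m) - coeff u (G m) = coeff u (It m (0 + 1) - It m 0) := by
    rw [map_sub, It, It, coeff_mk, coeff_mk]
    simp
  obtain ⟨k, hk⟩ := coeff_w_mul_G m u
  have e2 : It m (0 + 1) - It m 0 = (9 * T m : ℤ) • (w * G m) + (81 : ℤ) •
        ((w * Polynomial.aeval y P) * G m) := by
    rw [h, zsmul_eq_mul, zsmul_eq_mul, map_mul, map_ofNat]
    conv_lhs => rw [show ((T m : ℤ) : ℤ⟦X⟧) * y + 3 * (y * (3 * Polynomial.aeval y P)) =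
      ((T m : ℤ) : ℤ⟦X⟧) * (3 * w) + 3 * (3 * w * (3 * Polynomial.aeval y P)) by rw [y]]
    push_cast
    ring
  rw [h1, e2, map_add, map_zsmul, map_zsmul, smul_eq_mul, smul_eq_mul]
  intro h3
  have h4 : (81 : ℤ) ∣ 9 * T m * coeff u (w * G m) := (Int.dvd_add_left (dvd_mul_right 81 _)).1 h3
  have h5 : (9 : ℤ) ∣ T m * coeff u (w * G m) := by
    rw [show (81 : ℤ) = 9 * 9 by norm_num, mul_assoc] at h4
    exact (Int.mul_dvd_mul_iff_left (by norm_num)).1 h4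
  have h6 : IsCoprime (9 : ℤ) (coeff u (w * G m)) := by
    have : IsCoprime (3 : ℤ) (coeff u (w * G m)) := by
      rw [Prime.coprime_iff_not_dvd Int.prime_three]
      intro h7
      apply hu
      have h8 : (3 : ℤ) ∣ (u : ℤ) := by
        have : (u : ℤ) = coeff u (w * G m) - 3 * k := by linarith
        rw [this]
        exact dvd_sub h7 (dvd_mul_right _ _)
      exact_mod_cast h8
    have h9 : (9 : ℤ) = 3 ^ 2 := by norm_num
    rw [h9]
    exact this.pow_left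
  exact hT (h6.dvd_of_dvd_mul_right h5)

end

end Run7.h44.Par
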